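import Pool.Agent.H630VC.Avg4

/-!
For randomised circuits of monotone real gates with few NOT gates, `2` is exactly the best constant
ratio for vertex cover on the graphs with a perfect matching.

On the graphs with `2n` vertices that contain a fixed perfect matching the linear programming
relaxation always has value `n` (for unit weights), and the constant `2n` is a `2`-approximation of
the vertex cover number. Every randomised circuit of monotone real gates with a ratio `c < 2` on
these graphs has exponential size, even if it also has `t` NOT gates (or other gates) where
`2^t ≤ n^α`, `α < 1/2`. The tests: a graph `H` on `n` vertices, either a disjoint union of few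
cliques given by a random colouring, or all pairs touching a small random set, together with `n` new
vertices joined to everything.
-/

namespace Pool.Agent.Results.MP_cff830_lc.BelowTwo

open H630VC

/-- (1) Let `c < 2`, `0 ≤ α < 1/2` and `n` large. Consider a randomised circuit, that is a finite
family `l r`, `r ∈ R`, of circuits of monotone real gates and arbitrary further gates, with the
product of the numbers `w + 1` over the further gates of each circuit (`w` the number of wires) at
most `n^α`, that, on each graph with `2n` vertices that contains a fixed perfect matching and with
unit weights, for at least three quarters of the `r` computes a number between the size of a least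
vertex cover and `c` times this size, or, for at least three quarters of the `r`, prints a vertex
cover whose size is at most `c` times the least size. Some circuit of the family has at least
`2^(n^((1 - 2α)/7))` gates and wires into further gates. (2) The constant `2n` is a
`2`-approximation for all these graphs. -/
theorem result :
    (∀ c : ℝ, c < 2 → ∀ α : ℝ, 0 ≤ α → α < 1 / 2 → ∃ N : ℕ, ∀ n : ℕ, N ≤ n →
      ∀ (R : Type) [Fintype R] [Nonempty R] (l : R → List (WGraph (Fin n ⊕ Fin n) → ℝ))
        (q : R → List (List ((WGraph (Fin n ⊕ Fin n) → ℝ) × ℝ))),
      (∀ r, FProg (wInputs (Fin n ⊕ Fin n)) (l r) (q r)) → RSolves c l (unit '' pmGraphs n) →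
      (∀ r, (combos (q r) : ℝ) ≤ (n : ℝ) ^ α) →
      ∃ r, (2 : ℝ) ^ ((n : ℝ) ^ ((1 - 2 * α) / 7)) ≤ (l r).length + wires (q r)) ∧
    (∀ (n : ℕ), ∀ G ∈ pmGraphs n, ApproxVC 2 (fun _ => (2 * n : ℝ)) (unit G)) :=
  ⟨fun c hc α h0 h1 => asymp_rand_pm c hc α h0 h1, fun n G hG => constant_two n G hG⟩

end Pool.Agent.Results.MP_cff830_lc.BelowTwo
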