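import Pool.Agent.H630VC.Avg4

/-!
The best approximation ratio for vertex cover that randomised circuits of monotone real gates of
subexponential size can reach is `n^(1/2 + o(1))`; further gates, such as NOT gates, help at most
by the product of the numbers `w + 1`, where `w` is the number of wires of the gate.

The lower bound holds for circuits with arbitrary nondecreasing real gates of fan-in two whose
inputs are the adjacency bits, the weights and constants. Positive tests are the disjoint unions of
the cliques on the colour classes of a random colouring; negative tests contain all pairs that
touch a small random set `T` of vertices. Terms are equivalence relations on the vertices with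
small support, and each gate is approximated by a closed real level function on these relations. A
closed level function has few critical relations of each support size: this is a sunflower argument
where the sunflower is found by a second moment computation, made exponentially reliable by letting
`T` be the union of many independent random sets. For randomised circuits with further gates one
lets `T` grow by a random walk: in each step either a bit that enters a further gate changes with
noticeable probability, or the circuit errs with noticeable probability.

Upper bound: for each `k` the test whether for one of `2n²` suitable partitions of the vertices
into about `√(k / (2 log n + 1))` parts every part contains an edge.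
-/

namespace Pool.Agent.Results.MP_cff830_lc.RatioExponent

open H630VC

/-- (1) Let `0 < η ≤ 1/2` and `n` large. Consider a randomised circuit, that is a finite family
`l r`, `r ∈ R`, of circuits of monotone real gates and arbitrary further gates, that, on each graph
with `n` vertices and unit weights, for at least three quarters of the `r` computes a number between
the size of a least vertex cover and `ρ` times this size, or, for at least three quarters of the
`r`, prints a vertex cover whose size is at most `ρ` times the least size. If `ρ` times the product
of the numbers `w + 1` over the further gates of each circuit is at most `n^(1/2 - η)` then some
circuit of the family has at least `2^(n^(η/4))` gates and wires into further gates. (2) For all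
`n ≥ 2`, at most `n^12` monotone gates and no further gates suffice, without randomness, for the
ratio `16 √(n log n)`. -/
theorem result :
    (∀ η : ℝ, 0 < η → η ≤ 1 / 2 → ∃ N : ℕ, ∀ n : ℕ, N ≤ n → ∀ ρ : ℝ, 1 ≤ ρ →
      ∀ (R : Type) [Fintype R] [Nonempty R] (l : R → List (WGraph (Fin n) → ℝ))
      (q : R → List (List ((WGraph (Fin n) → ℝ) × ℝ))),
      (∀ r, FProg (wInputs (Fin n)) (l r) (q r)) → RSolves ρ l (unit '' Set.univ) →
      (∀ r, ρ * combos (q r) ≤ (n : ℝ) ^ (1 / 2 - η)) →
      ∃ r, (2 : ℝ) ^ ((n : ℝ) ^ (η / 4)) ≤ (l r).length + wires (q r)) ∧
    (∀ n : ℕ, 2 ≤ n → ∃ l : List (WGraph (Fin n) → ℝ), Prog (wInputs (Fin n)) l ∧
      l.length ≤ n ^ 12 ∧ Solves (16 * Real.sqrt (n * Real.log n)) l (unit '' Set.univ)) :=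
  ⟨fun η h1 h2 => asymp_rand_all η h1 h2, fun n hn => upper_unit n hn⟩

end Pool.Agent.Results.MP_cff830_lc.RatioExponent
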