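import Pool.Agent.H550R2.Cl.VC

set_option autoImplicit false

/-! Vertex cover within `7/6 - ε` and random semidefinite programs that are symmetric under the
Klein four-groups of many disjoint quadruples of vertices. -/

namespace Pool.Agent.Results.MP_cff830_lc.VertexCoverSDP

open Pool.Agent.H550R2.Lift Pool.Agent.H550R2.Cl
open Pool.Agent.H550R2.Neg (RSDP)

/-- Random semidefinite programs that are symmetric under the translations of `r` disjoint
quadruples of vertices and tell graphs with a vertex cover of `3 r` vertices from graphs all of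
whose vertex covers have `(7/2 - ε) r` vertices have exponential order. Conversely a program for
such a task can be made symmetric on any `r` quadruples at order `4 ^ r N`. -/
theorem result :
    (∀ ε : ℝ, 0 < ε → ∃ C : ℕ, 0 < C ∧ ∀ r : ℕ, C ≤ r →
      ∀ (W : Type) (blk : Fin r × (Fin 2 → ZMod 2) ↪ W) (R : RSDP (Sym2 W)),
      TransSym R blk → SepVC R (3 * r) ((7 / 2 - ε) * r) →
      ∀ N : ℕ, (∀ ω, Fintype.card (R.D ω) ≤ N) → 2 ^ (r / C) ≤ N) ∧
    (∀ (r : ℕ) (W : Type) (blk : Fin r × (Fin 2 → ZMod 2) ↪ W) (k K : ℝ) (D : Type)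
      [Fintype D] [DecidableEq D] (P : SDP (Sym2 W) D), DecVC P k K →
      ∃ (D' : Type) (_ : Fintype D') (_ : DecidableEq D') (P' : SDP (Sym2 W) D'),
        Fintype.card D' = 4 ^ r * Fintype.card D ∧
        (∀ γ, ∃ O, P'.IsAut (edPerm (tp blk γ)) O) ∧ DecVC P' k K) :=
  ⟨vc_lower, fun _ _ blk k K D _ _ P hP => vc_conv blk k K D P hP⟩

end Pool.Agent.Results.MP_cff830_lc.VertexCoverSDP
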